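import Mathlib
import Pool.Agent.Q10.PowerSum.Exact

/-!
# Sums of powers of matrices over finite rings (commutative or not, with or without identity)
-/

namespace Pool.Agent.Results.MP_0bd9b3_al.PowerSums

open Q10.PowerSum

universe u

/-- The `k`-th power of an element `a` of a ring which need not have an identity, for `k ≥ 1`:
`pow' a 1 = a` and `pow' a (k + 1) = pow' a k * a` for `k ≥ 1` (and `pow' a 0 = a`, a value which
is not used). -/
def pow' {T : Type u} [Mul T] (a : T) : ℕ → T
  | 0 => a
  | 1 => a
  | k + 2 => pow' a (k + 1) * a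

/-- The sum of the `k`-th powers of all the `d × d` matrices over a finite ring `R`. -/
def powerSum (R : Type u) [NonUnitalRing R] [Fintype R] (d k : ℕ) : Matrix (Fin d) (Fin d) R :=
  ∑ A : Matrix (Fin d) (Fin d) R, pow' A k

/-- `e` is the unique nonzero element of `R` with `2e = 0`. -/
def IsTwoTorsion (R : Type u) [NonUnitalRing R] (e : R) : Prop :=
  e ≠ 0 ∧ e + e = 0 ∧ ∀ x : R, x ≠ 0 → x + x = 0 → x = e

/-- The three conditions on `d`, `R` and `k`. -/
def Exceptional (R : Type u) [NonUnitalRing R] [Fintype R] (d k : ℕ) : Prop :=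
  d = 2 ∧
  (Fintype.card R % 4 = 2 ∧ 1 < k ∧ (k % 6 = 5 ∨ k % 6 = 0 ∨ k % 6 = 1)) ∧
  ∃ e : R, IsTwoTorsion R e ∧ e * e = e

theorem pow'_eq {T : Type u} [Mul T] (a : T) (n : ℕ) : pow' a (n + 1) = power a n := by
  induction n with
  | zero => rfl
  | succ n ih => rw [pow', ih, power]

theorem powerSum_eq (R : Type u) [NonUnitalRing R] [Fintype R] (d n : ℕ) :
    powerSum R d (n + 1) = PS (Matrix (Fin d) (Fin d) R) n := by
  unfold powerSum PS
  simp only [pow'_eq]

/-- For every finite ring `R` (commutative or not, with or without identity) and all `d > 1` and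
`k ≥ 1`, the sum of the `k`-th powers of all the `d × d` matrices over `R` is zero, unless the three
conditions hold, in which case it is the scalar matrix with diagonal entries equal to the unique
nonzero element `e` with `2e = 0`. -/
theorem result (R : Type u) [NonUnitalRing R] [Fintype R] (d k : ℕ) (hd : 1 < d) (hk : 1 ≤ k) :
    (¬ Exceptional R d k → powerSum R d k = 0) ∧
    (Exceptional R d k → ∀ e : R, IsTwoTorsion R e →
      powerSum R d k = Matrix.diagonal fun _ => e) := by
  obtain ⟨n, rfl⟩ : ∃ n, k = n + 1 := ⟨k - 1, by omega⟩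
  rw [powerSum_eq]
  refine ⟨?_, ?_⟩
  · intro hex
    by_cases hR : Fintype.card R % 4 = 2
    · obtain ⟨e, he0, he⟩ := exists_two_torsion hR
      have huniq : IsTwoTorsion R e :=
        ⟨he0, he, fun x hx0 hx => unique_two_torsion hR he0 he hx0 hx⟩
      have hee2 : e * e + e * e = 0 := by rw [← mul_add, he, mul_zero]
      by_cases hee : e * e = 0
      · exact exact_zero hR (by rw [Fintype.card_fin]; omega) he0 he hee n
      · have hee' : e * e = e := huniq.2.2 _ hee hee2
        by_cases hd2 : d = 2
        · subst hd2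
          rw [exact_two hR he0 he hee' n, if_neg]
          intro h
          exact hex ⟨rfl, ⟨hR, h⟩, e, huniq, hee'⟩
        · exact exact_three hR he0 he hee' (by omega) n
    · exact (good (by rw [Fintype.card_fin]; omega) n R).1 hR
  · rintro ⟨rfl, ⟨hR, h⟩, e, he, hee⟩ e' he'
    have hee' : e' = e := he.2.2 e' he'.1 he'.2.1
    rw [hee', exact_two hR he.1 he.2.1 hee n, if_pos h]

end Pool.Agent.Results.MP_0bd9b3_al.PowerSums
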